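import Mathlib

set_option autoImplicit false


namespace Pool.Agent.Helper952.Hedge

/-- Coordinate triples. -/
abbrev E := Fin 3 → ℝ

/-- coordinate functional -/
noncomputable abbrev P (i : Fin 3) : E →L[ℝ] ℝ := ContinuousLinearMap.proj i

/-- `f` has differential with partial derivatives `p, q, s` at `x`. -/
def HP (f : E → ℝ) (p q s : ℝ) (x : E) : Prop :=
  HasFDerivAt f (p • P 0 + q • P 1 + s • P 2) x

theorem HP.congr {f : E → ℝ} {p q s p' q' s' : ℝ} {x : E} (h : HP f p q s x)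
    (h1 : p = p') (h2 : q = q') (h3 : s = s') : HP f p' q' s' x := by
  subst h1 h2 h3; exact h

theorem HP.x0 (x : E) : HP (fun v => v 0) 1 0 0 x := by
  have h : HasFDerivAt (fun v : E => v 0) (P 0) x := (P 0).hasFDerivAt
  unfold HP
  convert h using 1
  refine ContinuousLinearMap.ext fun w => ?_
  simp

theorem HP.x1 (x : E) : HP (fun v => v 1) 0 1 0 x := by
  have h : HasFDerivAt (fun v : E => v 1) (P 1) x := (P 1).hasFDerivAt
  unfold HP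
  convert h using 1
  refine ContinuousLinearMap.ext fun w => ?_
  simp

theorem HP.x2 (x : E) : HP (fun v => v 2) 0 0 1 x := by
  have h : HasFDerivAt (fun v : E => v 2) (P 2) x := (P 2).hasFDerivAt
  unfold HP
  convert h using 1
  refine ContinuousLinearMap.ext fun w => ?_
  simp

theorem HP.const (c : ℝ) (x : E) : HP (fun _ => c) 0 0 0 x := by
  unfold HP
  convert hasFDerivAt_const c x using 1
  refine ContinuousLinearMap.ext fun w => ?_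
  simp

theorem HP.add {f g : E → ℝ} {p q s p' q' s' : ℝ} {x : E} (h : HP f p q s x)
    (h' : HP g p' q' s' x) : HP (fun v => f v + g v) (p + p') (q + q') (s + s') x := by
  unfold HP at *
  refine (HasFDerivAt.add h h').congr_fderiv ?_
  refine ContinuousLinearMap.ext fun w => ?_
  simp
  ring

theorem HP.sub {f g : E → ℝ} {p q s p' q' s' : ℝ} {x : E} (h : HP f p q s x)
    (h' : HP g p' q' s' x) : HP (fun v => f v - g v) (p - p') (q - q') (s - s') x := by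
  unfold HP at *
  refine (HasFDerivAt.sub h h').congr_fderiv ?_
  refine ContinuousLinearMap.ext fun w => ?_
  simp
  ring

theorem HP.mul {f g : E → ℝ} {p q s p' q' s' : ℝ} {x : E} (h : HP f p q s x)
    (h' : HP g p' q' s' x) :
    HP (fun v => f v * g v) (p * g x + f x * p') (q * g x + f x * q') (s * g x + f x * s') x := by
  unfold HP at *
  refine (HasFDerivAt.mul h h').congr_fderiv ?_
  refine ContinuousLinearMap.ext fun w => ?_
  simp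
  ring

theorem HP.pow {f : E → ℝ} {p q s : ℝ} {x : E} (h : HP f p q s x) (n : ℕ) :
    HP (fun v => f v ^ n) (n * f x ^ (n-1) * p) (n * f x ^ (n-1) * q) (n * f x ^ (n-1) * s) x := by
  unfold HP at *
  refine (HasFDerivAt.pow h n).congr_fderiv ?_
  refine ContinuousLinearMap.ext fun w => ?_
  simp
  ring

theorem HP.div {f g : E → ℝ} {p q s p' q' s' : ℝ} {x : E} (h : HP f p q s x)
    (h' : HP g p' q' s' x) (hg : g x ≠ 0) :
    HP (fun v => f v / g v) ((p * g x - f x * p') / g x ^ 2) ((q * g x - f x * q') / g x ^ 2)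
      ((s * g x - f x * s') / g x ^ 2) x := by
  unfold HP at *
  have hi : HasFDerivAt (fun v => (g v)⁻¹) ((-(g x ^ 2)⁻¹) • (p' • P 0 + q' • P 1 + s' • P 2)) x :=
    (hasDerivAt_inv hg).comp_hasFDerivAt x h'
  have h3 : HasFDerivAt (fun v => f v / g v) (f x • ((-(g x ^ 2)⁻¹) • (p' • P 0 + q' • P 1 + s' • P 2))
      + (g x)⁻¹ • (p • P 0 + q • P 1 + s • P 2)) x := HasFDerivAt.mul h hi
  refine h3.congr_fderiv ?_
  refine ContinuousLinearMap.ext fun w => ?_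
  simp
  field_simp
  ring

theorem HP.sqrt {f : E → ℝ} {p q s : ℝ} {x : E} (h : HP f p q s x) (hf : f x ≠ 0) :
    HP (fun v => Real.sqrt (f v)) (p / (2 * Real.sqrt (f x))) (q / (2 * Real.sqrt (f x)))
      (s / (2 * Real.sqrt (f x))) x := by
  unfold HP at *
  refine (HasFDerivAt.sqrt h hf).congr_fderiv ?_
  refine ContinuousLinearMap.ext fun w => ?_
  simp
  ring

/-- Second derivatives from gradient formulas. -/
theorem hess {H g0 g1 g2 : E → ℝ} {a b c d e f k l m : ℝ} {x : E} (hx : x ≠ 0)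
    (hg : ∀ y : E, y ≠ 0 → HP H (g0 y) (g1 y) (g2 y) y)
    (h0 : HP g0 a b c x) (h1 : HP g1 d e f x) (h2 : HP g2 k l m x) (v w : E) :
    fderiv ℝ (fderiv ℝ H) x v w =
      (a * v 0 + b * v 1 + c * v 2) * w 0 + (d * v 0 + e * v 1 + f * v 2) * w 1 +
      (k * v 0 + l * v 1 + m * v 2) * w 2 := by
  have hev : fderiv ℝ H =ᶠ[nhds x] fun y => g0 y • P 0 + g1 y • P 1 + g2 y • P 2 := by
    filter_upwards [isOpen_ne.mem_nhds hx] with y hy
    exact (hg y hy).fderiv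
  rw [hev.fderiv_eq]
  unfold HP at h0 h1 h2
  have hd : HasFDerivAt (fun y => g0 y • P 0 + g1 y • P 1 + g2 y • P 2)
      ((a • P 0 + b • P 1 + c • P 2).smulRight (P 0) + (d • P 0 + e • P 1 + f • P 2).smulRight (P 1)
        + (k • P 0 + l • P 1 + m • P 2).smulRight (P 2)) x :=
    ((h0.smul_const (P 0)).add (h1.smul_const (P 1))).add (h2.smul_const (P 2))
  rw [hd.fderiv]
  simp

/-- Euclidean norm. -/
noncomputable def rr (v : E) : ℝ := Real.sqrt (v 0 ^ 2 + v 1 ^ 2 + v 2 ^ 2)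

/-- The rotationally symmetric analytic hedgehog. -/
noncomputable def FF (v : E) : ℝ :=
  rr v - 2 * v 2 ^ 2 / rr v - v 2 ^ 4 / (3 * rr v ^ 3)

/-- denominator of `GG` -/
def qq (v : E) : ℝ := v 0 ^ 2 + v 1 ^ 2 + 2 * v 2 ^ 2

/-- The non trivial deformation. -/
noncomputable def GG (v : E) : ℝ := v 2 * (v 0 ^ 2 - v 1 ^ 2) / qq v

theorem pos_of_ne {v : E} (hv : v ≠ 0) : 0 < v 0 ^ 2 + v 1 ^ 2 + v 2 ^ 2 := by
  by_contra hcon
  apply hv
  have h0 : v 0 = 0 := by nlinarith [sq_nonneg (v 0), sq_nonneg (v 1), sq_nonneg (v 2)]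
  have h1 : v 1 = 0 := by nlinarith [sq_nonneg (v 0), sq_nonneg (v 1), sq_nonneg (v 2)]
  have h2 : v 2 = 0 := by nlinarith [sq_nonneg (v 0), sq_nonneg (v 1), sq_nonneg (v 2)]
  funext i; fin_cases i <;> simp [h0, h1, h2]

theorem rr_pos {v : E} (hv : v ≠ 0) : 0 < rr v := Real.sqrt_pos.2 (pos_of_ne hv)

theorem rr_sq {v : E} : rr v ^ 2 = v 0 ^ 2 + v 1 ^ 2 + v 2 ^ 2 := by
  unfold rr; rw [Real.sq_sqrt]; positivity

theorem qq_pos {v : E} (hv : v ≠ 0) : 0 < qq v := by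
  have := pos_of_ne hv
  unfold qq; nlinarith [sq_nonneg (v 2)]

theorem hp_rr {v : E} (hv : v ≠ 0) : HP rr (v 0 / rr v) (v 1 / rr v) (v 2 / rr v) v := by
  have h := ((((HP.x0 v).pow 2).add ((HP.x1 v).pow 2)).add ((HP.x2 v).pow 2)).sqrt (pos_of_ne hv).ne'
  have hr := (rr_pos hv).ne'
  refine HP.congr h ?_ ?_ ?_
  all_goals
    change _ / (2 * rr v) = _
    field_simp
    simp

theorem hp_qq (v : E) : HP qq (2 * v 0) (2 * v 1) (4 * v 2) v := by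
  have h := ((((HP.x0 v).pow 2).add ((HP.x1 v).pow 2)).add ((HP.const 2 v).mul ((HP.x2 v).pow 2)))
  refine HP.congr h ?_ ?_ ?_
  all_goals
    simp
  ring

noncomputable def F0 (v : E) : ℝ := v 0 * (rr v ^ 2 + v 2 ^ 2) ^ 2 / rr v ^ 5
noncomputable def F1 (v : E) : ℝ := v 1 * (rr v ^ 2 + v 2 ^ 2) ^ 2 / rr v ^ 5
noncomputable def F2 (v : E) : ℝ :=
  (-3 * v 2 * rr v ^ 4 + 2 / 3 * v 2 ^ 3 * rr v ^ 2 + v 2 ^ 5) / rr v ^ 5

theorem hp_FF {v : E} (hv : v ≠ 0) : HP FF (F0 v) (F1 v) (F2 v) v := by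
  have hr := (rr_pos hv).ne'
  have h := ((hp_rr hv).sub ((((HP.const 2 v).mul ((HP.x2 v).pow 2))).div (hp_rr hv) hr)).sub
    (((HP.x2 v).pow 4).div ((HP.const 3 v).mul ((hp_rr hv).pow 3)) (by positivity))
  refine HP.congr h ?_ ?_ ?_
  · simp [F0]; field_simp; ring
  · simp [F1]; field_simp; ring
  · simp [F2]; field_simp; ring

noncomputable def VV (v : E) : ℝ := (rr v ^ 2 + v 2 ^ 2) ^ 2 / rr v ^ 5
noncomputable def AA (v : E) : ℝ :=
  (rr v ^ 2 + v 2 ^ 2) * (rr v ^ 2 + 5 * v 2 ^ 2) / rr v ^ 7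
noncomputable def BB (v : E) : ℝ :=
  (rr v ^ 2 + v 2 ^ 2) * (3 * rr v ^ 2 - 5 * v 2 ^ 2) / rr v ^ 7

theorem hp_VV {v : E} (hv : v ≠ 0) :
    HP VV (-(v 0 * AA v)) (-(v 1 * AA v)) (v 2 * BB v) v := by
  have hr := (rr_pos hv).ne'
  have h := ((((hp_rr hv).pow 2).add ((HP.x2 v).pow 2)).pow 2).div ((hp_rr hv).pow 5) (by positivity)
  refine HP.congr h ?_ ?_ ?_
  · simp [AA]; field_simp; ring
  · simp [AA]; field_simp; ring
  · simp [BB]; field_simp; ring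

theorem hp_F0 {v : E} (hv : v ≠ 0) :
    HP F0 (VV v - v 0 ^ 2 * AA v) (-(v 0 * v 1 * AA v)) (v 0 * v 2 * BB v) v := by
  have hr := (rr_pos hv).ne'
  have h := (HP.x0 v).mul (hp_VV hv)
  have he : F0 = fun v => v 0 * VV v := by funext w; simp [F0, VV]; ring
  rw [he]
  refine HP.congr h ?_ ?_ ?_
  all_goals ring

theorem hp_F1 {v : E} (hv : v ≠ 0) :
    HP F1 (-(v 0 * v 1 * AA v)) (VV v - v 1 ^ 2 * AA v) (v 1 * v 2 * BB v) v := by
  have hr := (rr_pos hv).ne'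
  have h := (HP.x1 v).mul (hp_VV hv)
  have he : F1 = fun v => v 1 * VV v := by funext w; simp [F1, VV]; ring
  rw [he]
  refine HP.congr h ?_ ?_ ?_
  all_goals ring

theorem hp_F2 {v : E} (hv : v ≠ 0) :
    HP F2 (v 0 * v 2 * BB v) (v 1 * v 2 * BB v) (-((v 0 ^ 2 + v 1 ^ 2) * BB v)) v := by
  have hr := (rr_pos hv).ne'
  have hs := @rr_sq v
  have h := ((((HP.const (-3) v).mul (HP.x2 v)).mul ((hp_rr hv).pow 4)).add
    (((HP.const (2 / 3) v).mul ((HP.x2 v).pow 3)).mul ((hp_rr hv).pow 2))).add ((HP.x2 v).pow 5)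
  have h' := h.div ((hp_rr hv).pow 5) (by positivity)
  refine HP.congr h' ?_ ?_ ?_
  · simp [BB]; field_simp; ring
  · simp [BB]; field_simp; ring
  · have h3 : v 0 ^ 2 + v 1 ^ 2 = rr v ^ 2 - v 2 ^ 2 := by rw [hs]; ring
    rw [h3]
    simp [BB]; field_simp; ring

noncomputable def G0 (v : E) : ℝ := 4 * v 0 * v 2 * (v 1 ^ 2 + v 2 ^ 2) / qq v ^ 2
noncomputable def G1 (v : E) : ℝ := -4 * v 1 * v 2 * (v 0 ^ 2 + v 2 ^ 2) / qq v ^ 2
noncomputable def G2 (v : E) : ℝ :=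
  (v 0 ^ 2 - v 1 ^ 2) * (v 0 ^ 2 + v 1 ^ 2 - 2 * v 2 ^ 2) / qq v ^ 2

theorem hp_GG {v : E} (hv : v ≠ 0) : HP GG (G0 v) (G1 v) (G2 v) v := by
  have hq := (qq_pos hv).ne'
  have h := ((HP.x2 v).mul (((HP.x0 v).pow 2).sub ((HP.x1 v).pow 2))).div (hp_qq v) hq
  have hqq : qq v = v 0 ^ 2 + v 1 ^ 2 + 2 * v 2 ^ 2 := rfl
  refine HP.congr h ?_ ?_ ?_
  · simp only [G0]; field_simp; rw [hqq]; ring
  · simp only [G1]; field_simp; rw [hqq]; ring
  · simp only [G2]; field_simp; rw [hqq]; ring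

noncomputable def G00 (v : E) : ℝ :=
  4 * v 2 * (v 1 ^ 2 + v 2 ^ 2) / qq v ^ 2 - 16 * v 0 ^ 2 * v 2 * (v 1 ^ 2 + v 2 ^ 2) / qq v ^ 3
noncomputable def G01 (v : E) : ℝ :=
  8 * v 0 * v 1 * v 2 / qq v ^ 2 - 16 * v 0 * v 1 * v 2 * (v 1 ^ 2 + v 2 ^ 2) / qq v ^ 3
noncomputable def G02 (v : E) : ℝ :=
  4 * v 0 * (v 1 ^ 2 + 3 * v 2 ^ 2) / qq v ^ 2 -
    32 * v 0 * v 2 ^ 2 * (v 1 ^ 2 + v 2 ^ 2) / qq v ^ 3
noncomputable def G11 (v : E) : ℝ :=
  -4 * v 2 * (v 0 ^ 2 + v 2 ^ 2) / qq v ^ 2 + 16 * v 1 ^ 2 * v 2 * (v 0 ^ 2 + v 2 ^ 2) / qq v ^ 3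
noncomputable def G12 (v : E) : ℝ :=
  -4 * v 1 * (v 0 ^ 2 + 3 * v 2 ^ 2) / qq v ^ 2 +
    32 * v 1 * v 2 ^ 2 * (v 0 ^ 2 + v 2 ^ 2) / qq v ^ 3
noncomputable def G22 (v : E) : ℝ :=
  -4 * v 2 * (v 0 ^ 2 - v 1 ^ 2) / qq v ^ 2 -
    8 * v 2 * (v 0 ^ 2 - v 1 ^ 2) * (v 0 ^ 2 + v 1 ^ 2 - 2 * v 2 ^ 2) / qq v ^ 3

theorem hp_G0 {v : E} (hv : v ≠ 0) : HP G0 (G00 v) (G01 v) (G02 v) v := by
  have hq := (qq_pos hv).ne'
  have h := ((((HP.const 4 v).mul (HP.x0 v)).mul (HP.x2 v)).mul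
    (((HP.x1 v).pow 2).add ((HP.x2 v).pow 2))).div ((hp_qq v).pow 2) (by positivity)
  refine HP.congr h ?_ ?_ ?_
  · simp [G00]; field_simp; ring
  · simp [G01]; field_simp; ring
  · simp [G02]; field_simp; ring

theorem hp_G1 {v : E} (hv : v ≠ 0) : HP G1 (G01 v) (G11 v) (G12 v) v := by
  have hq := (qq_pos hv).ne'
  have hqq : qq v = v 0 ^ 2 + v 1 ^ 2 + 2 * v 2 ^ 2 := rfl
  have h := ((((HP.const (-4) v).mul (HP.x1 v)).mul (HP.x2 v)).mul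
    (((HP.x0 v).pow 2).add ((HP.x2 v).pow 2))).div ((hp_qq v).pow 2) (by positivity)
  refine HP.congr h ?_ ?_ ?_
  · simp [G01]; field_simp; rw [hqq]; ring
  · simp [G11]; field_simp; ring
  · simp [G12]; field_simp; ring

theorem hp_G2 {v : E} (hv : v ≠ 0) : HP G2 (G02 v) (G12 v) (G22 v) v := by
  have hq := (qq_pos hv).ne'
  have hqq : qq v = v 0 ^ 2 + v 1 ^ 2 + 2 * v 2 ^ 2 := rfl
  have h := ((((HP.x0 v).pow 2).sub ((HP.x1 v).pow 2)).mul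
    ((((HP.x0 v).pow 2).add ((HP.x1 v).pow 2)).sub ((HP.const 2 v).mul ((HP.x2 v).pow 2)))).div
      ((hp_qq v).pow 2) (by positivity)
  refine HP.congr h ?_ ?_ ?_
  · simp [G02]; field_simp; rw [hqq]; ring
  · simp [G12]; field_simp; rw [hqq]; ring
  · simp [G22]; field_simp; ring

theorem hessF {v : E} (hv : v ≠ 0) (i j : Fin 3) :
    fderiv ℝ (fderiv ℝ FF) v (Pi.single i 1) (Pi.single j 1) =
      !![VV v - v 0 ^ 2 * AA v, -(v 0 * v 1 * AA v), v 0 * v 2 * BB v;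
        -(v 0 * v 1 * AA v), VV v - v 1 ^ 2 * AA v, v 1 * v 2 * BB v;
        v 0 * v 2 * BB v, v 1 * v 2 * BB v, -((v 0 ^ 2 + v 1 ^ 2) * BB v)] i j := by
  rw [hess hv (fun y hy => hp_FF hy) (hp_F0 hv) (hp_F1 hv) (hp_F2 hv)]
  fin_cases i <;> fin_cases j <;> simp

theorem hessG {v : E} (hv : v ≠ 0) (i j : Fin 3) :
    fderiv ℝ (fderiv ℝ GG) v (Pi.single i 1) (Pi.single j 1) =
      !![G00 v, G01 v, G02 v; G01 v, G11 v, G12 v; G02 v, G12 v, G22 v] i j := by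
  rw [hess hv (fun y hy => hp_GG hy) (hp_G0 hv) (hp_G1 hv) (hp_G2 hv)]
  fin_cases i <;> fin_cases j <;> simp

theorem hessFG {v : E} (hv : v ≠ 0) (i j : Fin 3) :
    fderiv ℝ (fderiv ℝ (fun y => FF y + GG y)) v (Pi.single i 1) (Pi.single j 1) =
      !![VV v - v 0 ^ 2 * AA v, -(v 0 * v 1 * AA v), v 0 * v 2 * BB v;
        -(v 0 * v 1 * AA v), VV v - v 1 ^ 2 * AA v, v 1 * v 2 * BB v;
        v 0 * v 2 * BB v, v 1 * v 2 * BB v, -((v 0 ^ 2 + v 1 ^ 2) * BB v)] i j +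
      !![G00 v, G01 v, G02 v; G01 v, G11 v, G12 v; G02 v, G12 v, G22 v] i j := by
  rw [hess hv (fun y hy => (hp_FF hy).add (hp_GG hy)) ((hp_F0 hv).add (hp_G0 hv))
    ((hp_F1 hv).add (hp_G1 hv)) ((hp_F2 hv).add (hp_G2 hv))]
  fin_cases i <;> fin_cases j <;> simp

theorem rr_smul {t : ℝ} (ht : 0 < t) (v : E) : rr (t • v) = t * rr v := by
  unfold rr
  have : (t • v) 0 ^ 2 + (t • v) 1 ^ 2 + (t • v) 2 ^ 2 = t ^ 2 * (v 0 ^ 2 + v 1 ^ 2 + v 2 ^ 2) := by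
    simp; ring
  rw [this, Real.sqrt_mul (by positivity), Real.sqrt_sq ht.le]

theorem FF_smul {t : ℝ} (ht : 0 < t) (v : E) : FF (t • v) = t * FF v := by
  unfold FF
  rw [rr_smul ht]
  by_cases h : rr v = 0
  · simp [h]
  · have : (t • v) 2 = t * v 2 := by simp
    rw [this]
    field_simp

theorem GG_smul {t : ℝ} (ht : 0 < t) (v : E) : GG (t • v) = t * GG v := by
  unfold GG
  have h1 : qq (t • v) = t ^ 2 * qq v := by simp [qq]; ring
  rw [h1]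
  by_cases h : qq v = 0
  · simp [h]
  · simp
    field_simp

theorem rr_cd {v : E} (hv : v ≠ 0) (n : WithTop ℕ∞) : ContDiffAt ℝ n rr v := by
  unfold rr
  apply ContDiffAt.sqrt
  · fun_prop
  · exact (pos_of_ne hv).ne'

theorem FF_cd {v : E} (hv : v ≠ 0) (n : WithTop ℕ∞) : ContDiffAt ℝ n FF v := by
  have hr := (rr_pos hv).ne'
  have h := rr_cd hv n
  have h2 : ContDiffAt ℝ n (fun v : E => v 2) v := by fun_prop
  unfold FF
  refine ContDiffAt.sub (ContDiffAt.sub h (ContDiffAt.div ?_ h hr)) (ContDiffAt.div ?_ ?_ ?_)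
  · exact contDiffAt_const.mul (h2.pow 2)
  · exact h2.pow 4
  · exact contDiffAt_const.mul (h.pow 3)
  · positivity

theorem GG_cd {v : E} (hv : v ≠ 0) (n : WithTop ℕ∞) : ContDiffAt ℝ n GG v := by
  have hq := (qq_pos hv).ne'
  unfold GG
  refine ContDiffAt.div ?_ ?_ hq
  · fun_prop
  · unfold qq; fun_prop

theorem FF_analytic : AnalyticOnNhd ℝ FF {x : E | x ≠ 0} := by
  intro v hv
  exact (FF_cd hv ⊤).analyticAt

theorem mixed_zero {v : E} (hs : v 0 ^ 2 + v 1 ^ 2 + v 2 ^ 2 = 1) :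
    (VV v - v 0 ^ 2 * AA v) * G11 v + (VV v - v 1 ^ 2 * AA v) * G00 v
      - 2 * (-(v 0 * v 1 * AA v)) * G01 v
    + ((VV v - v 0 ^ 2 * AA v) * G22 v + (-((v 0 ^ 2 + v 1 ^ 2) * BB v)) * G00 v
      - 2 * (v 0 * v 2 * BB v) * G02 v)
    + ((VV v - v 1 ^ 2 * AA v) * G22 v + (-((v 0 ^ 2 + v 1 ^ 2) * BB v)) * G11 v
      - 2 * (v 1 * v 2 * BB v) * G12 v) = 0 := by
  have hr : rr v = 1 := by unfold rr; rw [hs]; simp
  have hq : qq v = 1 + v 2 ^ 2 := by unfold qq; linarith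
  have hq0 : (1 + v 2 ^ 2 : ℝ) ≠ 0 := by positivity
  simp only [VV, AA, BB, G00, G01, G02, G11, G12, G22, hr, hq]
  have h1 : v 1 ^ 2 = 1 - v 0 ^ 2 - v 2 ^ 2 := by linarith
  generalize v 0 = a at *
  generalize v 1 = b at *
  generalize v 2 = c at *
  field_simp
  grind


theorem GG_analytic : AnalyticOnNhd ℝ GG {x : E | x ≠ 0} := by
  intro v hv
  exact (GG_cd hv ⊤).analyticAt

section adj
variable {v : E}

theorem pre (hs : v 0 ^ 2 + v 1 ^ 2 + v 2 ^ 2 = 1) : rr v = 1 ∧ qq v = 1 + v 2 ^ 2 := by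
  refine ⟨?_, ?_⟩
  · unfold rr; rw [hs]; simp
  · unfold qq; linarith

theorem A22 (hs : v 0 ^ 2 + v 1 ^ 2 + v 2 ^ 2 = 1) :
    (VV v - v 0 ^ 2 * AA v) * G11 v + (VV v - v 1 ^ 2 * AA v) * G00 v
      - 2 * (-(v 0 * v 1 * AA v)) * G01 v = 0 := by
  obtain ⟨hr, hq⟩ := pre hs
  have hq0 : (1 + v 2 ^ 2 : ℝ) ≠ 0 := by positivity
  simp only [VV, AA, BB, G00, G01, G02, G11, G12, G22, hr, hq]
  have h1 : v 1 ^ 2 = 1 - v 0 ^ 2 - v 2 ^ 2 := by linarith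
  generalize v 0 = a at *
  generalize v 1 = b at *
  generalize v 2 = c at *
  field_simp
  grind

theorem A11 (hs : v 0 ^ 2 + v 1 ^ 2 + v 2 ^ 2 = 1) :
    (VV v - v 0 ^ 2 * AA v) * G22 v + (-((v 0 ^ 2 + v 1 ^ 2) * BB v)) * G00 v
      - 2 * (v 0 * v 2 * BB v) * G02 v = 0 := by
  obtain ⟨hr, hq⟩ := pre hs
  have hq0 : (1 + v 2 ^ 2 : ℝ) ≠ 0 := by positivity
  simp only [VV, AA, BB, G00, G01, G02, G11, G12, G22, hr, hq]
  have h1 : v 1 ^ 2 = 1 - v 0 ^ 2 - v 2 ^ 2 := by linarith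
  generalize v 0 = a at *
  generalize v 1 = b at *
  generalize v 2 = c at *
  field_simp
  grind

theorem A00 (hs : v 0 ^ 2 + v 1 ^ 2 + v 2 ^ 2 = 1) :
    (VV v - v 1 ^ 2 * AA v) * G22 v + (-((v 0 ^ 2 + v 1 ^ 2) * BB v)) * G11 v
      - 2 * (v 1 * v 2 * BB v) * G12 v = 0 := by
  obtain ⟨hr, hq⟩ := pre hs
  have hq0 : (1 + v 2 ^ 2 : ℝ) ≠ 0 := by positivity
  simp only [VV, AA, BB, G00, G01, G02, G11, G12, G22, hr, hq]
  have h1 : v 1 ^ 2 = 1 - v 0 ^ 2 - v 2 ^ 2 := by linarith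
  generalize v 0 = a at *
  generalize v 1 = b at *
  generalize v 2 = c at *
  field_simp
  grind

/-- entry (0,1) of the mixed adjugate, up to sign -/
theorem A01 (hs : v 0 ^ 2 + v 1 ^ 2 + v 2 ^ 2 = 1) :
    (-(v 0 * v 1 * AA v)) * G22 v + (-((v 0 ^ 2 + v 1 ^ 2) * BB v)) * G01 v
      - (v 0 * v 2 * BB v) * G12 v - (v 1 * v 2 * BB v) * G02 v = 0 := by
  obtain ⟨hr, hq⟩ := pre hs
  have hq0 : (1 + v 2 ^ 2 : ℝ) ≠ 0 := by positivity
  simp only [VV, AA, BB, G00, G01, G02, G11, G12, G22, hr, hq]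
  have h1 : v 1 ^ 2 = 1 - v 0 ^ 2 - v 2 ^ 2 := by linarith
  generalize v 0 = a at *
  generalize v 1 = b at *
  generalize v 2 = c at *
  field_simp
  grind

/-- entry (0,2) of the mixed adjugate -/
theorem A02 (hs : v 0 ^ 2 + v 1 ^ 2 + v 2 ^ 2 = 1) :
    (-(v 0 * v 1 * AA v)) * G12 v + (v 1 * v 2 * BB v) * G01 v
      - (VV v - v 1 ^ 2 * AA v) * G02 v - (v 0 * v 2 * BB v) * G11 v = 0 := by
  obtain ⟨hr, hq⟩ := pre hs
  have hq0 : (1 + v 2 ^ 2 : ℝ) ≠ 0 := by positivity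
  simp only [VV, AA, BB, G00, G01, G02, G11, G12, G22, hr, hq]
  have h1 : v 1 ^ 2 = 1 - v 0 ^ 2 - v 2 ^ 2 := by linarith
  generalize v 0 = a at *
  generalize v 1 = b at *
  generalize v 2 = c at *
  field_simp
  grind

/-- entry (1,2) of the mixed adjugate -/
theorem A12 (hs : v 0 ^ 2 + v 1 ^ 2 + v 2 ^ 2 = 1) :
    (-(v 0 * v 1 * AA v)) * G02 v + (v 0 * v 2 * BB v) * G01 v
      - (VV v - v 0 ^ 2 * AA v) * G12 v - (v 1 * v 2 * BB v) * G00 v = 0 := by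
  obtain ⟨hr, hq⟩ := pre hs
  have hq0 : (1 + v 2 ^ 2 : ℝ) ≠ 0 := by positivity
  simp only [VV, AA, BB, G00, G01, G02, G11, G12, G22, hr, hq]
  have h1 : v 1 ^ 2 = 1 - v 0 ^ 2 - v 2 ^ 2 := by linarith
  generalize v 0 = a at *
  generalize v 1 = b at *
  generalize v 2 = c at *
  field_simp
  grind
end adj

end Pool.Agent.Helper952.Hedge
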